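import Pool.Agent.Lib.LB40.Sup

/-! Fundamental solutions of linear equations along segments depend analytically on the end point. -/

namespace Pool.Agent.Lib.LB40

open Set Metric

variable {B : Type*} [NormedAddCommGroup B] [NormedSpace ℝ B] [CompleteSpace B]

/-- The unit interval. -/
abbrev J : Type := Icc (0 : ℝ) 1

/-- Extension of a path by constants. -/
noncomputable def ex (f : C(J, B)) (s : ℝ) : B := f (projIcc 0 1 zero_le_one s)

omit [NormedSpace ℝ B] [CompleteSpace B] in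
theorem ex_cont (f : C(J, B)) : Continuous (ex f) := f.continuous.comp continuous_projIcc

omit [NormedSpace ℝ B] [CompleteSpace B] in
theorem ex_mem (f : C(J, B)) {s : ℝ} (hs : s ∈ Icc (0 : ℝ) 1) : ex f s = f ⟨s, hs⟩ := by
  rw [ex, projIcc_of_mem]

theorem prim_deriv (f : C(J, B)) (t : ℝ) :
    HasDerivAt (fun u => ∫ s in (0 : ℝ)..u, ex f s) (ex f t) t :=
  ((ex_cont f).integral_hasStrictDerivAt 0 t).hasDerivAt

theorem prim_cont (f : C(J, B)) : Continuous fun u => ∫ s in (0 : ℝ)..u, ex f s :=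
  continuous_iff_continuousAt.2 fun t => (prim_deriv f t).continuousAt

/-- The primitive vanishing at zero. -/
noncomputable def prim : C(J, B) →L[ℝ] C(J, B) :=
  LinearMap.mkContinuous
    { toFun := fun f => ⟨fun t => ∫ s in (0 : ℝ)..t, ex f s,
        (prim_cont f).comp continuous_subtype_val⟩
      map_add' := fun f g => by
        ext t
        exact intervalIntegral.integral_add ((ex_cont f).intervalIntegrable _ _)
          ((ex_cont g).intervalIntegrable _ _)
      map_smul' := fun c f => by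
        ext t
        exact intervalIntegral.integral_smul c (ex f) } 1 (fun f => by
      refine (ContinuousMap.norm_le _ (by positivity)).2 fun t => ?_
      refine (intervalIntegral.norm_integral_le_of_norm_le_const (C := ‖f‖)
        fun s _ => f.norm_coe_le_norm _).trans ?_
      rw [sub_zero, abs_of_nonneg t.2.1, one_mul]
      exact mul_le_of_le_one_right (norm_nonneg _) t.2.2)

theorem prim_apply (f : C(J, B)) (t : J) : prim f t = ∫ s in (0 : ℝ)..t, ex f s := rfl

/-- Pointwise application of a path of operators. -/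
noncomputable def app : C(J, B →L[ℝ] B) →L[ℝ] C(J, B) →L[ℝ] C(J, B) :=
  LinearMap.mkContinuous₂
    (LinearMap.mk₂ ℝ (fun (N : C(J, B →L[ℝ] B)) (f : C(J, B)) =>
        (⟨fun t => N t (f t), N.continuous.clm_apply f.continuous⟩ : C(J, B)))
      (fun N M f => by ext t; simp) (fun c N f => by ext t; simp)
      (fun N f g => by ext t; simp) (fun c N f => by ext t; simp)) 1 (fun N f => by
      refine (ContinuousMap.norm_le _ (by positivity)).2 fun t => ?_
      rw [one_mul]
      exact ((N t).le_opNorm _).trans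
        (mul_le_mul (N.norm_coe_le_norm t) (f.norm_coe_le_norm t) (norm_nonneg _) (norm_nonneg N)))

omit [CompleteSpace B] in
theorem app_apply (N : C(J, B →L[ℝ] B)) (f : C(J, B)) (t : J) : app N f t = N t (f t) := rfl

/-- The Volterra operator. -/
noncomputable def vol (N : C(J, B →L[ℝ] B)) : C(J, B) →L[ℝ] C(J, B) := prim.comp (app N)

theorem vol_pow (N : C(J, B →L[ℝ] B)) (f : C(J, B)) (n : ℕ) (t : J) :
    ‖(vol N ^ n) f t‖ ≤ (‖N‖ * t) ^ n / n.factorial * ‖f‖ := by
  induction n generalizing t with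
  | zero => simpa using f.norm_coe_le_norm t
  | succ n ih =>
    rw [pow_succ']
    change ‖∫ s in (0 : ℝ)..t, ex (app N ((vol N ^ n) f)) s‖ ≤ _
    have hb : ∀ s ∈ Ioc (0 : ℝ) t, ‖ex (app N ((vol N ^ n) f)) s‖
        ≤ ‖N‖ ^ (n + 1) / n.factorial * ‖f‖ * s ^ n := by
      intro s hs
      have hs' : s ∈ Icc (0 : ℝ) 1 := ⟨hs.1.le, hs.2.trans t.2.2⟩
      rw [ex_mem _ hs', app_apply]
      refine ((N _).le_opNorm _).trans ((mul_le_mul (N.norm_coe_le_norm _) (ih ⟨s, hs'⟩)
        (norm_nonneg _) (norm_nonneg _)).trans (le_of_eq ?_))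
      rw [mul_pow]; ring
    refine (intervalIntegral.norm_integral_le_of_norm_le t.2.1
      (Filter.Eventually.of_forall hb) (Continuous.intervalIntegrable (by fun_prop) _ _)).trans
      (le_of_eq ?_)
    rw [intervalIntegral.integral_const_mul, integral_pow, Nat.factorial_succ, mul_pow]
    have : (n.factorial : ℝ) ≠ 0 := by positivity
    push_cast
    field_simp
    ring

theorem unit_of_pow {R : Type*} [NormedRing R] [CompleteSpace R] (x : R) (n : ℕ)
    (h : ‖x ^ n‖ < 1) : IsUnit (1 - x) := by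
  have hu : IsUnit (1 - x ^ n) := (Units.oneSub _ h).isUnit
  have e1 := mul_neg_geom_sum x n
  have e2 := geom_sum_mul_neg x n
  have hc : Commute (1 - x) (∑ i ∈ Finset.range n, x ^ i) := e1.trans e2.symm
  rw [← e1] at hu
  exact (hc.isUnit_mul_iff.1 hu).1

theorem inv_an {R : Type*} [NormedRing R] [NormedAlgebra ℝ R] [CompleteSpace R] {x : R}
    (h : IsUnit x) : AnalyticAt ℝ (Ring.inverse : R → R) x := analyticAt_inverse h.unit

theorem vol_unit (N : C(J, B →L[ℝ] B)) : IsUnit (1 - vol N) := by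
  obtain ⟨n, hn⟩ := ((FloorSemiring.tendsto_pow_div_factorial_atTop ‖N‖).eventually
    (gt_mem_nhds zero_lt_one)).exists
  have h : ‖vol N ^ n‖ < 1 := by
    refine lt_of_le_of_lt (ContinuousLinearMap.opNorm_le_bound _ (by positivity) fun f => ?_) hn
    refine (ContinuousMap.norm_le _ (by positivity)).2 fun t => (vol_pow N f n t).trans ?_
    have h1 : ‖N‖ * t ≤ ‖N‖ := mul_le_of_le_one_right (norm_nonneg N) t.2.2
    have h2 : 0 ≤ ‖N‖ * t := mul_nonneg (norm_nonneg N) t.2.1
    gcongr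
  exact unit_of_pow (R := C(J, B) →L[ℝ] C(J, B)) (vol N) n h

/-- The solution of the linear equation as a path. -/
noncomputable def sol (N : C(J, B →L[ℝ] B)) (b : B) : C(J, B) :=
  Ring.inverse (1 - vol N) (ContinuousMap.const J b)

theorem sol_eq (N : C(J, B →L[ℝ] B)) (b : B) (t : J) :
    sol N b t = b + ∫ s in (0 : ℝ)..t, ex (app N (sol N b)) s := by
  have h : (1 - vol N) (sol N b) = ContinuousMap.const J b := by
    change ((1 - vol N) * Ring.inverse (1 - vol N)) _ = _
    rw [Ring.mul_inverse_cancel _ (vol_unit N)]; rfl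
  have h2 : sol N b t - vol N (sol N b) t = b := DFunLike.congr_fun h t
  exact sub_eq_iff_eq_add.1 h2

theorem sol_an (N : C(J, B →L[ℝ] B)) (b : B) (t : J) :
    AnalyticAt ℝ (fun M : C(J, B →L[ℝ] B) => sol M b t) N := by
  let e : (C(J, B) →L[ℝ] C(J, B)) →L[ℝ] B :=
    (ContinuousMap.evalCLM ℝ t).comp (ContinuousLinearMap.apply ℝ C(J, B) (ContinuousMap.const J b))
  let v : C(J, B →L[ℝ] B) →L[ℝ] (C(J, B) →L[ℝ] C(J, B)) :=
    (ContinuousLinearMap.compL ℝ C(J, B) C(J, B) C(J, B) prim).comp app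
  have h1 : AnalyticAt ℝ (fun M : C(J, B →L[ℝ] B) => 1 - vol M) N :=
    analyticAt_const.sub (ContinuousLinearMap.analyticAt (𝕜 := ℝ) (E := C(J, B →L[ℝ] B))
      (F := C(J, B) →L[ℝ] C(J, B)) v N)
  have h2 : AnalyticAt ℝ (Ring.inverse : (C(J, B) →L[ℝ] C(J, B)) → _) (1 - vol N) :=
    inv_an (R := C(J, B) →L[ℝ] C(J, B)) (vol_unit N)
  exact (ContinuousLinearMap.analyticAt (𝕜 := ℝ) (E := C(J, B) →L[ℝ] C(J, B)) (F := B) e _).comp
    (h2.comp (f := fun M : C(J, B →L[ℝ] B) => 1 - vol M) h1)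

/-- The solution as a function on the line. -/
noncomputable def slv (N : C(J, B →L[ℝ] B)) (b : B) (t : ℝ) : B :=
  b + ∫ s in (0 : ℝ)..t, ex (app N (sol N b)) s

theorem slv_zero (N : C(J, B →L[ℝ] B)) (b : B) : slv N b 0 = b := by simp [slv]

theorem slv_mem (N : C(J, B →L[ℝ] B)) (b : B) {t : ℝ} (ht : t ∈ Icc (0 : ℝ) 1) :
    slv N b t = sol N b ⟨t, ht⟩ := (sol_eq N b ⟨t, ht⟩).symm

theorem slv_deriv (N : C(J, B →L[ℝ] B)) (b : B) {t : ℝ} (ht : t ∈ Icc (0 : ℝ) 1) :
    HasDerivAt (slv N b) (N ⟨t, ht⟩ (slv N b t)) t := by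
  have h := (prim_deriv (app N (sol N b)) t).const_add b
  rw [ex_mem _ ht, app_apply, ← slv_mem] at h
  exact h

variable {A : Type*} [NormedRing A] [NormedAlgebra ℝ A] [CompleteSpace A]

theorem unit_of_deriv (M : C(J, A)) {Y : ℝ → A} (h0 : Y 0 = 1)
    (hY : ∀ t (ht : t ∈ Icc (0 : ℝ) 1), HasDerivAt Y (M ⟨t, ht⟩ * Y t) t) :
    ∀ t ∈ Icc (0 : ℝ) 1, IsUnit (Y t) := by
  let N : C(J, A →L[ℝ] A) := ⟨fun t => -(ContinuousLinearMap.mul ℝ A).flip (M t), by fun_prop⟩
  have hZ : ∀ t (ht : t ∈ Icc (0 : ℝ) 1),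
      HasDerivAt (slv N 1) (-(slv N 1 t * M ⟨t, ht⟩)) t := fun t ht => slv_deriv N 1 ht
  have h1 : ∀ t ∈ Icc (0 : ℝ) 1, slv N 1 t * Y t = 1 := by
    have hd : ∀ t ∈ Icc (0 : ℝ) 1, HasDerivAt (fun s => slv N 1 s * Y s) 0 t := fun t ht => by
      have := (hZ t ht).mul (hY t ht)
      rw [neg_mul, mul_assoc, neg_add_cancel] at this
      exact this
    intro t ht
    have := constant_of_has_deriv_right_zero (f := fun s => slv N 1 s * Y s) (a := 0) (b := 1)
      (fun s hs => (hd s hs).continuousAt.continuousWithinAt)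
      (fun s hs => (hd s (Ico_subset_Icc_self hs)).hasDerivWithinAt) t ht
    simpa [slv_zero, h0] using this
  have h2 : EqOn (fun s => Y s * slv N 1 s) (fun _ => 1) (Icc 0 1) := by
    have hd : ∀ t ∈ Icc (0 : ℝ) 1, HasDerivAt (fun s => Y s * slv N 1 s)
        (ex M t * (Y t * slv N 1 t) - (Y t * slv N 1 t) * ex M t) t := fun t ht => by
      have := (hY t ht).mul (hZ t ht)
      rw [mul_neg, mul_assoc, ← mul_assoc (Y t), ← sub_eq_add_neg, ← ex_mem M ht] at this
      exact this
    refine ODE_solution_unique (v := fun t w => ex M t * w - w * ex M t) (K := 2 * ‖M‖₊)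
      (fun t => LipschitzWith.of_dist_le_mul fun w z => ?_)
      (fun s hs => (hd s hs).continuousAt.continuousWithinAt)
      (fun s hs => (hd s (Ico_subset_Icc_self hs)).hasDerivWithinAt) continuousOn_const
      (fun s _ => ?_) (by simp [slv_zero, h0])
    · rw [dist_eq_norm, dist_eq_norm]
      have e : ex M t * w - w * ex M t - (ex M t * z - z * ex M t)
          = ex M t * (w - z) - (w - z) * ex M t := by noncomm_ring
      have hM : ‖ex M t‖ ≤ ‖M‖ := M.norm_coe_le_norm _
      have a1 := norm_mul_le (ex M t) (w - z)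
      have a2 := norm_mul_le (w - z) (ex M t)
      have a3 := mul_le_mul_of_nonneg_right hM (norm_nonneg (w - z))
      rw [e]
      refine (norm_sub_le _ _).trans ?_
      push_cast
      nlinarith
    · simpa using hasDerivWithinAt_const s (Ici s) (1 : A)
  exact fun t ht => ⟨⟨Y t, slv N 1 t, h2 ht, h1 t ht⟩, rfl⟩

theorem fund {V : Type*} [NormedAddCommGroup V] [NormedSpace ℝ V] {G : Set V}
    {L : V → V →L[ℝ] A} (hL : AnalyticOnNhd ℝ L G) (x0 : V) :
    ∃ Y : V → ℝ → A, AnalyticOnNhd ℝ (fun x => Y x 1) {x | segment ℝ x0 x ⊆ G} ∧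
      ∀ x, segment ℝ x0 x ⊆ G → Y x 0 = 1 ∧ ∀ t ∈ Icc (0 : ℝ) 1, IsUnit (Y x t) ∧
        HasDerivAt (Y x) (L (x0 + t • (x - x0)) (x - x0) * Y x t) t := by
  classical
  let c : V →L[ℝ] C(J, V × V) := LinearMap.mkContinuous
    { toFun := fun m => ⟨fun t => ((t : ℝ) • m, m), by fun_prop⟩
      map_add' := fun m n => by ext t <;> simp
      map_smul' := fun a m => by ext t <;> simp [smul_comm a] } 1 (fun m => by
      refine (ContinuousMap.norm_le _ (by positivity)).2 fun t => ?_
      rw [one_mul]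
      refine max_le ?_ le_rfl
      change ‖(t : ℝ) • m‖ ≤ _
      rw [norm_smul, Real.norm_of_nonneg t.2.1]
      exact mul_le_of_le_one_left (norm_nonneg _) t.2.2)
  let γ : V → C(J, V × V) := fun x => ContinuousMap.const J (x0, 0) + c (x - x0)
  have hγ : ∀ x (t : J), γ x t = (x0 + (t : ℝ) • (x - x0), x - x0) := fun x t => by
    change (x0, (0 : V)) + ((t : ℝ) • (x - x0), x - x0) = _
    rw [Prod.mk_add_mk, zero_add]
  have hγa : ∀ x, AnalyticAt ℝ γ x := fun x => analyticAt_const.add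
    ((ContinuousLinearMap.analyticAt (𝕜 := ℝ) (E := V) (F := C(J, V × V)) c _).comp
      (f := fun x : V => x - x0) (analyticAt_id.sub analyticAt_const))
  let g : V × V → A →L[ℝ] A := fun z => ContinuousLinearMap.mul ℝ A (L z.1 z.2)
  have hg : ∀ x, segment ℝ x0 x ⊆ G → ∀ t, AnalyticAt ℝ g (γ x t) := by
    intro x hx t
    have hm : (γ x t).1 ∈ G := by
      rw [hγ]
      exact hx (by rw [segment_eq_image']; exact ⟨t, t.2, rfl⟩)
    have a1 : AnalyticAt ℝ (fun z : V × V => (L z.1, z.2)) (γ x t) :=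
      ((hL _ hm).comp (f := Prod.fst) analyticAt_fst).prod analyticAt_snd
    have a2 := ((ContinuousLinearMap.id ℝ (V →L[ℝ] A)).analyticAt_bilinear _).comp
      (f := fun z : V × V => (L z.1, z.2)) a1
    exact ((ContinuousLinearMap.mul ℝ A).analyticAt _).comp a2
  let N : V → C(J, A →L[ℝ] A) := fun x => ContinuousMap.mkD (fun t => g (γ x t)) 0
  have hN : ∀ x, segment ℝ x0 x ⊆ G → AnalyticAt ℝ N x ∧ ∀ t, N x t = g (γ x t) := by
    intro x hx
    obtain ⟨S, h1, h2⟩ := sup_an (γ x) (hg x hx)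
    have h3 : ∀ᶠ y in nhds x, S (γ y) = N y := by
      filter_upwards [(hγa x).continuousAt.eventually h2] with y hy
      exact (ContinuousMap.mkD_eq_self (f := S (γ y)) (g := 0)).symm.trans
        (congrArg (fun f => ContinuousMap.mkD f 0) (funext hy))
    refine ⟨(h1.comp (hγa x)).congr h3, fun t => ?_⟩
    rw [← h3.self_of_nhds]
    exact h2.self_of_nhds t
  refine ⟨fun x => slv (N x) 1, fun x hx => ?_, fun x hx => ?_⟩
  · have e : (fun x => slv (N x) (1 : A) 1) = fun x => sol (N x) 1 ⟨1, right_mem_Icc.2 zero_le_one⟩ :=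
      funext fun y => slv_mem _ _ _
    rw [e]
    exact (sol_an (N x) 1 _).comp (hN x hx).1
  · have hd : ∀ t (ht : t ∈ Icc (0 : ℝ) 1), HasDerivAt (slv (N x) (1 : A))
        (L (x0 + t • (x - x0)) (x - x0) * slv (N x) 1 t) t := fun t ht => by
      have := slv_deriv (N x) (1 : A) ht
      rw [(hN x hx).2, hγ] at this
      exact this
    let M : C(J, A) := ⟨fun t => N x t 1, (N x).continuous.clm_apply continuous_const⟩
    have hM : ∀ t (ht : t ∈ Icc (0 : ℝ) 1), M ⟨t, ht⟩ = L (x0 + t • (x - x0)) (x - x0) :=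
      fun t ht => by
        change N x ⟨t, ht⟩ 1 = _
        rw [(hN x hx).2, hγ]
        exact mul_one _
    refine ⟨slv_zero _ _, fun t ht => ⟨?_, hd t ht⟩⟩
    exact unit_of_deriv M (slv_zero _ _) (fun s hs => by rw [hM]; exact hd s hs) t ht

end Pool.Agent.Lib.LB40
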