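import Pool.Agent.Lib.LB40.Kil

/-! The characterisation of Euclidean norms by shadow boundaries. -/

open Set Filter Topology

noncomputable section

namespace Pool.Agent.Lib.LB40

variable {X : Type} [NormedAddCommGroup X] [NormedSpace ℝ X]

/-- Every hyperplane has a transversal direction killed along it. -/
def Hq (Φ : X → ℝ) : Prop :=
  ∀ l : X →ₗ[ℝ] ℝ, l ≠ 0 → ∃ q, l q ≠ 0 ∧ ∀ x ≠ 0, l x = 0 → Kil Φ x q

theorem cvx_flat {φ : ℝ → ℝ} (hc : ConvexOn ℝ univ φ) {a b c : ℝ} (hbc : b < c)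
    (h1 : φ a = φ b) (h2 : φ b = φ c) {z : ℝ} (hz : z ∈ Ioo a b) : φ z = φ b := by
  apply le_antisymm
  · have := hc.le_on_segment (mem_univ a) (mem_univ b) (z := z)
      (by rw [segment_eq_Icc (hz.1.trans hz.2).le]; exact Ioo_subset_Icc_self hz)
    rwa [h1, max_self] at this
  · exact hc.le_left_of_right_le'' (mem_univ z) (mem_univ c) hz.2.le hbc h2.ge

theorem cvx_sym {φ : ℝ → ℝ} (hc : ConvexOn ℝ univ φ) {s : ℝ} (hs : 0 < s)
    (h1 : φ (-1) = φ 1) (h2 : ∀ r, φ (s + r) = φ (s - r)) : HasDerivAt φ 0 0 := by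
  have h3 : φ 1 = φ (1 + 2 * s) := by
    have := h2 (1 + s)
    rw [show s + (1 + s) = 1 + 2 * s by ring, show s - (1 + s) = -1 by ring] at this
    rw [this, h1]
  have h4 : φ =ᶠ[𝓝 0] fun _ => φ 1 := by
    filter_upwards [Ioo_mem_nhds (show (-1 : ℝ) < 0 by norm_num) (show (0 : ℝ) < 1 by norm_num)]
      with z hz
    exact cvx_flat hc (by linarith) h1 h3 hz
  exact (hasDerivAt_const (0 : ℝ) (φ 1)).congr_of_eventuallyEq h4

variable {Φ : Seminorm ℝ X}

theorem Hq.sup (hq : Hq Φ) (P : Submodule ℝ X) (v : X) :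
    ∃ p ∈ P, ∀ y ∈ P, y ≠ 0 → Kil Φ y (v - p) := by
  set N : Submodule ℝ X := ⨅ y : {y // y ∈ P ∧ y ≠ 0}, kilS Φ y.1 with hN
  have hm : ∀ w, w ∈ N ↔ ∀ y ∈ P, y ≠ 0 → Kil Φ y w := fun w => by
    rw [hN, Submodule.mem_iInf]
    exact ⟨fun h y hy h0 => h ⟨y, hy, h0⟩, fun h y => h y.1 y.2.1 y.2.2⟩
  have ht : N ⊔ P = ⊤ := by
    by_contra hne
    obtain ⟨l, hl, hle⟩ := Submodule.exists_le_ker_of_lt_top _ (lt_top_iff_ne_top.2 hne)
    obtain ⟨q, h1, h2⟩ := hq l hl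
    have h3 : q ∈ N := (hm q).2 fun y hy h0 => h2 y h0 (hle (Submodule.mem_sup_right hy))
    exact h1 (hle (Submodule.mem_sup_left h3))
  have hv : v ∈ N ⊔ P := ht ▸ Submodule.mem_top
  obtain ⟨w, hw, p, hp, rfl⟩ := Submodule.mem_sup.1 hv
  exact ⟨p, hp, by simpa using (hm w).1 hw⟩

theorem Hq.coef (hq : Hq Φ) {x : X} (hx : x ≠ 0) (v : X) : ∃ a : ℝ, Kil Φ x (v - a • x) := by
  obtain ⟨p, hp, h⟩ := hq.sup (Submodule.span ℝ {x}) v
  obtain ⟨a, rfl⟩ := Submodule.mem_span_singleton.1 hp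
  exact ⟨a, h x (Submodule.mem_span_singleton_self x) hx⟩

theorem kil_sub {y v w : X} (hv : Kil Φ y v) (hw : Kil Φ y w) : Kil Φ y (v - w) :=
  (kilS Φ y).sub_mem hv hw

theorem kil_rad (hp : ∀ x, Φ x = 0 → x = 0) {x : X} (hx : x ≠ 0) {c : ℝ}
    (h : Kil Φ x (c • x)) : c = 0 := h.self.resolve_right fun h0 => hx (hp x h0)

theorem Hq.plane (hq : Hq Φ) (hp : ∀ x, Φ x = 0 → x = 0) {x t w : X} (hx : x ≠ 0) (ht : t ≠ 0)
    (hxt : Kil Φ x t) (h1 : Kil Φ x w) (h2 : Kil Φ t w) (a b : ℝ) (h0 : a • t + b • x ≠ 0) :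
    Kil Φ (a • t + b • x) w := by
  obtain ⟨p, hP, h⟩ := hq.sup (Submodule.span ℝ {t, x}) w
  obtain ⟨c, d, rfl⟩ := Submodule.mem_span_pair.1 hP
  have mt : t ∈ Submodule.span ℝ {t, x} := Submodule.subset_span (by simp)
  have mx : x ∈ Submodule.span ℝ {t, x} := Submodule.subset_span (by simp)
  have h3 := kil_sub (kil_sub h1 (h x mx hx)) (hxt.smul c)
  have hd : d = 0 := kil_rad hp hx (by
    rwa [show w - (w - (c • t + d • x)) - c • t = d • x by abel] at h3)
  subst hd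
  have h4 := kil_sub h2 (h t mt ht)
  have hc : c = 0 := kil_rad hp ht (by
    rwa [show w - (w - (c • t + (0 : ℝ) • x)) = c • t by rw [zero_smul]; abel] at h4)
  subst hc
  have := h _ (Submodule.mem_span_pair.2 ⟨a, b, rfl⟩) h0
  simpa using this

variable [FiniteDimensional ℝ X]

theorem Hq.refl (hq : Hq Φ) (hp : ∀ x, Φ x = 0 → x = 0) (h3 : 3 ≤ Module.finrank ℝ X)
    {x t : X} (hx : x ≠ 0) (ht : Kil Φ x t) (r : ℝ) : Φ (r • x + t) = Φ (r • x - t) := by
  by_cases h0 : t = 0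
  · simp [h0]
  obtain ⟨C, -, hC⟩ := lip_fd Φ
  have hne : Submodule.span ℝ {t, x} ≠ ⊤ := by
    intro h
    have h1 := finrank_span_finset_le_card (R := ℝ) (Finset.cons t {x} ?_)
    · rw [Set.finrank, Finset.coe_cons, Finset.coe_singleton, h, finrank_top] at h1
      rw [Finset.card_cons, Finset.card_singleton] at h1
      omega
    · intro e
      rw [Finset.mem_singleton] at e
      have := kil_rad hp hx (c := 1) (by rw [one_smul]; exact e ▸ ht)
      exact one_ne_zero this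
  obtain ⟨v, hv⟩ : ∃ v, v ∉ Submodule.span ℝ {t, x} := by
    by_contra hcon
    exact hne (Submodule.eq_top_iff'.2 fun v => by_contra fun h => hcon ⟨v, h⟩)
  obtain ⟨a, ha⟩ := hq.coef hx v
  set u := v - a • x with hu
  set c : ℝ → X := fun θ => (1 - 2 * θ) • t + (θ * (1 - θ)) • u with hc
  set c' : ℝ → X := fun θ => (-2 : ℝ) • t + (1 - 2 * θ) • u with hc'
  have cd : ∀ θ, HasDerivAt c (c' θ) θ := fun θ => by
    have e1 : HasDerivAt (fun θ : ℝ => 1 - 2 * θ) (-2) θ := by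
      simpa using ((hasDerivAt_id' θ).const_mul 2).const_sub 1
    have e2 : HasDerivAt (fun θ : ℝ => θ * (1 - θ)) (1 - 2 * θ) θ := by
      have := (hasDerivAt_id' θ).fun_mul ((hasDerivAt_id' θ).const_sub 1)
      rwa [show 1 * (1 - θ) + θ * -1 = 1 - 2 * θ by ring] at this
    exact (e1.smul_const t).fun_add (e2.smul_const u)
  have c0 : ∀ θ, c θ ≠ 0 := fun θ h => by
    by_cases hb : θ * (1 - θ) = 0
    · have h1 : (1 - 2 * θ) • t = 0 := by simpa [hc, hb] using h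
      rcases smul_eq_zero.1 h1 with h2 | h2
      · have : θ = 1 / 2 := by linarith
        rw [this] at hb
        norm_num at hb
      · exact h0 h2
    · apply hv
      have h1 : (θ * (1 - θ)) • u = -((1 - 2 * θ) • t) := eq_neg_of_add_eq_zero_right h
      have h2 : u = (-((θ * (1 - θ))⁻¹ * (1 - 2 * θ))) • t := by
        rw [neg_smul, mul_smul, ← smul_neg, ← h1, smul_smul, inv_mul_cancel₀ hb, one_smul]
      exact Submodule.mem_span_pair.2 ⟨_, a, by rw [← h2, hu, sub_add_cancel]⟩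
  have cx : ∀ θ, Kil Φ x (c θ) := fun θ => (ht.smul _).add (ha.smul _)
  have cx' : ∀ θ, Kil Φ x (c' θ) := fun θ => (ht.smul _).add (ha.smul _)
  have cp : ∀ θ, Φ (c θ) ≠ 0 := fun θ h => c0 θ (hp _ h)
  have key : ∀ ρ : ℝ, ∀ θ, HasDerivAt (fun θ => Φ ((Φ (c θ))⁻¹ • c θ + ρ • x)) 0 θ := by
    intro ρ θ
    obtain ⟨b, hb⟩ := hq.coef (c0 θ) (c' θ)
    have e1 : HasDerivAt (fun θ => Φ (c θ)) (b * Φ (c θ)) θ :=
      (curve_iff (sub_le_lip hC) (cd θ)).2 hb.radial
    have e2 := ((e1.fun_inv (cp θ)).fun_smul (cd θ)).add_const (ρ • x)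
    have e3 : (Φ (c θ))⁻¹ • c' θ + (-(b * Φ (c θ)) / Φ (c θ) ^ 2) • c θ =
        (Φ (c θ))⁻¹ • (c' θ - b • c θ) := by
      have : -(b * Φ (c θ)) / Φ (c θ) ^ 2 = -((Φ (c θ))⁻¹ * b) := by
        have := cp θ
        field_simp
      rw [this, smul_sub, neg_smul, mul_smul, sub_eq_add_neg]
    rw [e3] at e2
    refine (kil_iff_curve hC e2).1 (Kil.smul ?_ _)
    refine hq.plane hp hx (c0 θ) (cx θ) (kil_sub (cx' θ) ((cx θ).smul b)) hb _ _ fun h => ?_
    have h1 : (Φ (c θ))⁻¹ • c θ = (-ρ) • x := by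
      rw [neg_smul]; exact eq_neg_of_add_eq_zero_left h
    have h2 : -ρ = 0 := kil_rad hp hx (h1 ▸ (cx θ).smul _)
    rw [h2, zero_smul] at h1
    exact c0 θ ((smul_eq_zero.1 h1).resolve_left (inv_ne_zero (cp θ)))
  have tp : Φ t ≠ 0 := fun h => h0 (hp t h)
  have h4 := is_const_of_deriv_eq_zero (fun θ => (key ((Φ t)⁻¹ * r) θ).differentiableAt)
    (fun θ => (key ((Φ t)⁻¹ * r) θ).deriv) 0 1
  have e0 : c 0 = t := by simp [hc]
  have e1 : c 1 = -t := by
    simp only [hc]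
    norm_num
  simp only [e0, e1, map_neg_eq_map, mul_smul, ← smul_add, map_smul_eq_mul] at h4
  have h5 := mul_left_cancel₀ (norm_ne_zero_iff.2 (inv_ne_zero tp)) h4
  rwa [add_comm t, neg_add_eq_sub] at h5

theorem Hq.diag (hq : Hq Φ) (hp : ∀ x, Φ x = 0 → x = 0) (h3 : 3 ≤ Module.finrank ℝ X)
    {m d : X} (hm : m ≠ 0) (he : Φ (m + d) = Φ (m - d)) : Kil Φ m d := by
  obtain ⟨C, -, hC⟩ := lip_fd Φ
  have hc := line_cvx Φ m d
  have ln : ∀ s : ℝ, HasDerivAt (fun s : ℝ => m + s • d) d s := fun s => by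
    simpa using ((hasDerivAt_id' s).smul_const d).const_add m
  have h0 : ∀ s ∈ Ioo (-1 : ℝ) 1, m + s • d ≠ 0 := fun s hs h => by
    have h1 : m = (-s) • d := by rw [neg_smul]; exact eq_neg_of_add_eq_zero_left h
    have h2 : m + d = (1 - s) • d := by rw [h1, sub_smul, one_smul, neg_smul]; abel
    have h4 : m - d = -((1 + s) • d) := by rw [h1, add_smul, one_smul, neg_smul]; abel
    rw [h2, h4, map_neg_eq_map, map_smul_eq_mul, map_smul_eq_mul,
      Real.norm_of_nonneg (by linarith [hs.2]), Real.norm_of_nonneg (by linarith [hs.1])] at he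
    have h5 : s * Φ d = 0 := by linarith
    rcases mul_eq_zero.1 h5 with h6 | h6
    · exact hm (by rw [h1, h6]; simp)
    · exact hm (by rw [h1, hp d h6]; simp)
  have h1 : ∀ s : ℝ, ∃ b : ℝ, s ∈ Ioo (-1 : ℝ) 1 →
      HasDerivAt (fun s : ℝ => Φ (m + s • d)) b s := fun s => by
    by_cases hs : s ∈ Ioo (-1 : ℝ) 1
    · obtain ⟨b, hb⟩ := hq.coef (h0 s hs) d
      exact ⟨_, fun _ => (curve_iff (sub_le_lip hC) (ln s)).2 hb.radial⟩
    · exact ⟨0, fun h => absurd h hs⟩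
  choose f' hf' using h1
  have he' : Φ (m + (-1 : ℝ) • d) = Φ (m + (1 : ℝ) • d) := by
    rw [one_smul, he, neg_one_smul, sub_eq_add_neg]
  obtain ⟨s, hs, h2⟩ := exists_hasDerivAt_eq_zero (f := fun s : ℝ => Φ (m + s • d))
    (show (-1 : ℝ) < 1 by norm_num) hc.locallyLipschitz.continuous.continuousOn he' hf'
  have h4 : Kil Φ (m + s • d) d := (kil_iff_curve hC (ln s)).2 (h2 ▸ hf' s hs)
  have h5 : ∀ r : ℝ, Φ (m + (s + r) • d) = Φ (m + (s - r) • d) := fun r => by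
    have := hq.refl hp h3 (h0 s hs) (h4.smul r) 1
    rwa [one_smul, add_assoc, ← add_smul, add_sub_assoc, ← sub_smul] at this
  rcases lt_trichotomy s 0 with h | h | h
  · have h6 : Kil Φ m (-d) := by
      refine cvx_sym (line_cvx Φ m (-d)) (s := -s) (by linarith) (by simpa using he'.symm)
        fun r => ?_
      have := h5 (-r)
      simp only [smul_neg, ← neg_smul]
      rwa [show -(-s + r) = s + -r by ring, show -(-s - r) = s - -r by ring]
    simpa using h6.smul (-1)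
  · simpa [h] using h4
  · exact cvx_sym hc h he' h5

theorem Hq.swap (hq : Hq Φ) (hp : ∀ x, Φ x = 0 → x = 0) (h3 : 3 ≤ Module.finrank ℝ X)
    {x y : X} (hx : x ≠ 0) (he : Φ x = Φ y) {a : ℝ} (h : Kil Φ x (y - a • x)) :
    Kil Φ y (x - a • y) := by
  by_cases hm : x + y = 0
  · have e : y = -x := eq_neg_of_add_eq_zero_right hm
    subst e
    have h1 : -1 - a = 0 := kil_rad hp hx (by rwa [sub_smul, neg_one_smul])
    have h2 : a = -1 := by linarith
    rw [h2]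
    simpa using kil_zero Φ (-x)
  have h1 : Kil Φ (x + y) (x - y) := by
    refine hq.diag hp h3 hm ?_
    rw [show x + y + (x - y) = (2 : ℝ) • x by rw [two_smul]; abel,
      show x + y - (x - y) = (2 : ℝ) • y by rw [two_smul]; abel, map_smul_eq_mul, map_smul_eq_mul,
      he]
  have h2 : ∀ p q : ℝ, Φ (p • x + q • y) = Φ (p • y + q • x) := fun p q => by
    have := hq.refl hp h3 hm (h1.smul ((p - q) / 2)) ((p + q) / 2)
    rwa [show ((p + q) / 2) • (x + y) + ((p - q) / 2) • (x - y) = p • x + q • y by module,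
      show ((p + q) / 2) • (x + y) - ((p - q) / 2) • (x - y) = p • y + q • x by module] at this
  unfold Kil at h ⊢
  have e : (fun s : ℝ => Φ (y + s • (x - a • y))) = fun s : ℝ => Φ (x + s • (y - a • x)) := by
    funext s
    rw [show y + s • (x - a • y) = (1 - s * a) • y + s • x by module,
      show x + s • (y - a • x) = (1 - s * a) • x + s • y by module, h2]
  rwa [e]

/-- A norm in dimension at least three with plane shadow boundaries is Euclidean. -/
theorem kak (Φ : Seminorm ℝ X) (hp : ∀ x, Φ x = 0 → x = 0) (h3 : 3 ≤ Module.finrank ℝ X)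
    (hq : ∀ l : X →ₗ[ℝ] ℝ, l ≠ 0 → ∃ q, l q ≠ 0 ∧ ∀ x ≠ 0, l x = 0 → Kil Φ x q) :
    ∃ B : X →ₗ[ℝ] X →ₗ[ℝ] ℝ, (∀ x y, B x y = B y x) ∧ ∀ x, Φ x ^ 2 = B x x := by
  have hq' : Hq Φ := hq
  have h1 : ∀ x v : X, ∃ g : ℝ, (x = 0 → g = 0) ∧
      ∀ a : ℝ, x ≠ 0 → Kil Φ x (v - a • x) → g = Φ x ^ 2 * a := fun x v => by
    by_cases hx : x = 0
    · exact ⟨0, fun _ => rfl, fun _ h => absurd hx h⟩
    · obtain ⟨b, hb⟩ := hq'.coef hx v
      refine ⟨Φ x ^ 2 * b, fun h => absurd h hx, fun a _ ha => ?_⟩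
      have h2 := kil_sub ha hb
      rw [show v - a • x - (v - b • x) = (b - a) • x by module] at h2
      rw [sub_eq_zero.1 (kil_rad hp hx h2)]
  choose g g0 hg using h1
  have ad : ∀ x v w, g x (v + w) = g x v + g x w := fun x v w => by
    by_cases hx : x = 0
    · rw [g0 _ _ hx, g0 _ _ hx, g0 _ _ hx, add_zero]
    · obtain ⟨a, ha⟩ := hq'.coef hx v
      obtain ⟨b, hb⟩ := hq'.coef hx w
      have h2 := ha.add hb
      rw [show v - a • x + (w - b • x) = v + w - (a + b) • x by module] at h2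
      rw [hg _ _ _ hx h2, hg _ _ _ hx ha, hg _ _ _ hx hb, mul_add]
  have sm : ∀ (c : ℝ) x v, g x (c • v) = c • g x v := fun c x v => by
    by_cases hx : x = 0
    · rw [g0 _ _ hx, g0 _ _ hx, smul_zero]
    · obtain ⟨a, ha⟩ := hq'.coef hx v
      have h2 := ha.smul c
      rw [show c • (v - a • x) = c • v - (c * a) • x by module] at h2
      rw [hg _ _ _ hx h2, hg _ _ _ hx ha, smul_eq_mul]
      ring
  have z0 : ∀ x, g x 0 = 0 := fun x => by simpa using sm 0 x 0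
  have sy : ∀ x y, g x y = g y x := fun x y => by
    by_cases hx : x = 0
    · rw [g0 _ _ hx, hx, z0]
    by_cases hy : y = 0
    · rw [g0 y _ hy, hy, z0]
    have px : 0 < Φ x := (apply_nonneg Φ x).lt_of_ne' fun h => hx (hp x h)
    have py : 0 < Φ y := (apply_nonneg Φ y).lt_of_ne' fun h => hy (hp y h)
    set k : ℝ := Φ x / Φ y with hk
    have k0 : 0 < k := div_pos px py
    have he : Φ x = Φ (k • y) := by
      rw [map_smul_eq_mul, Real.norm_of_nonneg k0.le, hk, div_mul_cancel₀ _ py.ne']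
    obtain ⟨a, ha⟩ := hq'.coef hx y
    have h2 := ha.smul k
    rw [show k • (y - a • x) = k • y - (k * a) • x by module] at h2
    have h4 := (hq'.swap hp h3 hx he h2).base' (inv_ne_zero k0.ne')
    rw [smul_smul, inv_mul_cancel₀ k0.ne', one_smul, smul_smul] at h4
    rw [hg _ _ _ hx ha, hg _ _ _ hy h4, hk]
    field_simp
  refine ⟨LinearMap.mk₂ ℝ g (fun x x' v => by rw [sy, ad, sy v, sy v])
    (fun c x v => by rw [sy, sm, sy v]) ad sm, sy, fun x => ?_⟩
  rw [LinearMap.mk₂_apply]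
  by_cases hx : x = 0
  · rw [g0 _ _ hx, hx, map_zero]
    norm_num
  · rw [hg x x 1 hx (by simpa using kil_zero Φ x), mul_one]

end Pool.Agent.Lib.LB40
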