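import Mathlib

/-! Killed directions of a seminorm. -/

open Set Filter Topology

noncomputable section

namespace Pool.Agent.Lib.LB40

variable {X : Type} [NormedAddCommGroup X] [NormedSpace ℝ X]

/-- The derivative of `Φ` at `y` in the direction `v` is zero. -/
def Kil (Φ : X → ℝ) (y v : X) : Prop := HasDerivAt (fun s : ℝ => Φ (y + s • v)) 0 0

/-- `Φ` is minimal at `y` on the line with direction `v`. -/
def Mn (Φ : X → ℝ) (y v : X) : Prop := ∀ s : ℝ, Φ y ≤ Φ (y + s • v)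

theorem line_cvx (Φ : Seminorm ℝ X) (y v : X) :
    ConvexOn ℝ univ fun s : ℝ => Φ (y + s • v) := by
  refine ⟨convex_univ, fun a _ b _ p q hp hq hpq => ?_⟩
  have h := Φ.convexOn.2 (mem_univ (y + a • v)) (mem_univ (y + b • v)) hp hq hpq
  have e : y + (p • a + q • b) • v = p • (y + a • v) + q • (y + b • v) := by
    have : y = p • y + q • y := by rw [← add_smul, hpq, one_smul]
    simp only [smul_eq_mul, smul_add, add_smul, mul_smul]
    nth_rewrite 1 [this]
    abel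
  simp only
  rw [e]
  exact h

theorem Kil.mn {Φ : Seminorm ℝ X} {y v : X} (h : Kil Φ y v) : Mn Φ y v := by
  intro s
  have hc := line_cvx Φ y v
  rcases lt_trichotomy s 0 with hs | hs | hs
  · have h1 := hc.slope_le_of_hasDerivAt (mem_univ s) (mem_univ 0) hs h
    rw [slope_def_field] at h1
    have h2 : (0 : ℝ) < 0 - s := by linarith
    rw [div_le_iff₀ h2] at h1
    simp only [zero_smul, add_zero, zero_mul] at h1
    linarith
  · simp [hs]
  · have h1 := hc.le_slope_of_hasDerivAt (mem_univ 0) (mem_univ s) hs h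
    rw [slope_def_field] at h1
    have h2 : (0 : ℝ) < s - 0 := by linarith
    rw [le_div_iff₀ h2] at h1
    simp only [zero_smul, add_zero, zero_mul] at h1
    linarith

/-- An upper bound is enough. -/
theorem kil_of_le {Φ : Seminorm ℝ X} {y v : X}
    (h : ∀ ε > 0, ∀ᶠ s in 𝓝 (0 : ℝ), Φ (y + s • v) ≤ Φ y + ε * |s|) : Kil Φ y v := by
  unfold Kil
  rw [hasDerivAt_iff_isLittleO_nhds_zero, Asymptotics.isLittleO_iff]
  intro ε hε
  have h1 := h ε hε
  have h2 : ∀ᶠ s in 𝓝 (0 : ℝ), Φ (y + (-s) • v) ≤ Φ y + ε * |(-s)| := by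
    have : Tendsto (fun s : ℝ => -s) (𝓝 0) (𝓝 0) := by
      simpa using (continuous_neg.tendsto (0 : ℝ))
    exact this.eventually h1
  filter_upwards [h1, h2] with s a b
  have h3 : 2 * Φ y ≤ Φ (y + s • v) + Φ (y + (-s) • v) := by
    have e : (2 : ℝ) • y = (y + s • v) + (y + (-s) • v) := by
      rw [neg_smul, two_smul]; abel
    have := map_add_le_add Φ (y + s • v) (y + (-s) • v)
    rw [← e, map_smul_eq_mul] at this
    simpa using this
  rw [abs_neg] at b
  simp only [zero_add, zero_smul, add_zero, smul_zero, sub_zero, Real.norm_eq_abs]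
  rw [abs_le]
  constructor <;> linarith

theorem Kil.le {Φ : X → ℝ} {y v : X} (h : Kil Φ y v) {ε : ℝ} (hε : 0 < ε) :
    ∀ᶠ s in 𝓝 (0 : ℝ), Φ (y + s • v) ≤ Φ y + ε * |s| := by
  unfold Kil at h
  rw [hasDerivAt_iff_isLittleO_nhds_zero, Asymptotics.isLittleO_iff] at h
  filter_upwards [h hε] with s a
  simp only [zero_add, zero_smul, add_zero, smul_zero, sub_zero, Real.norm_eq_abs] at a
  have := (abs_le.1 a).2
  linarith

theorem kil_zero (Φ : X → ℝ) (y : X) : Kil Φ y 0 := by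
  unfold Kil
  simpa using hasDerivAt_const (0 : ℝ) (Φ y)

theorem Kil.smul {Φ : X → ℝ} {y v : X} (h : Kil Φ y v) (c : ℝ) : Kil Φ y (c • v) := by
  unfold Kil at h ⊢
  have h1 : HasDerivAt (fun s : ℝ => s * c) c 0 := by simpa using (hasDerivAt_id (0 : ℝ)).mul_const c
  have h2 : HasDerivAt (fun s : ℝ => Φ (y + s • v)) 0 (0 * c) := by rw [zero_mul]; exact h
  have h3 := h2.comp (0 : ℝ) h1
  simpa [Function.comp_def, mul_smul] using h3

theorem Kil.add {Φ : Seminorm ℝ X} {y v w : X} (hv : Kil Φ y v) (hw : Kil Φ y w) :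
    Kil Φ y (v + w) := by
  refine kil_of_le fun ε hε => ?_
  filter_upwards [(hv.smul 2).le hε, (hw.smul 2).le hε] with s a b
  have e : (2 : ℝ) • (y + s • (v + w)) = (y + s • (2 : ℝ) • v) + (y + s • (2 : ℝ) • w) := by
    simp only [two_smul, smul_add]; abel
  have := map_add_le_add Φ (y + s • (2 : ℝ) • v) (y + s • (2 : ℝ) • w)
  rw [← e, map_smul_eq_mul] at this
  simp only [Real.norm_ofNat] at this
  linarith

/-- The killed directions form a subspace. -/
def kilS (Φ : Seminorm ℝ X) (y : X) : Submodule ℝ X where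
  carrier := {v | Kil Φ y v}
  add_mem' := Kil.add
  zero_mem' := kil_zero Φ y
  smul_mem' := fun c _ h => Kil.smul h c

theorem mem_kilS {Φ : Seminorm ℝ X} {y v : X} : v ∈ kilS Φ y ↔ Kil Φ y v := Iff.rfl

theorem Kil.base {Φ : Seminorm ℝ X} {y v : X} (h : Kil Φ y v) (c : ℝ) :
    Kil Φ (c • y) (c • v) := by
  unfold Kil at h ⊢
  have h1 := h.const_mul ‖c‖
  have e : (fun s : ℝ => Φ (c • y + s • c • v)) = fun s : ℝ => ‖c‖ * Φ (y + s • v) := by
    funext s
    rw [← map_smul_eq_mul, smul_add, smul_comm c s v]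
  rw [e]
  simpa using h1

theorem Kil.base' {Φ : Seminorm ℝ X} {y v : X} (h : Kil Φ y v) {c : ℝ} (hc : c ≠ 0) :
    Kil Φ (c • y) v := by
  have := (h.base c).smul c⁻¹
  rwa [smul_smul, inv_mul_cancel₀ hc, one_smul] at this

theorem Kil.self {Φ : Seminorm ℝ X} {y : X} {c : ℝ} (h : Kil Φ y (c • y)) :
    c = 0 ∨ Φ y = 0 := by
  by_cases hc : c = 0
  · exact Or.inl hc
  · right
    have h1 := h.mn (-c⁻¹)
    rw [smul_smul, neg_mul, inv_mul_cancel₀ hc, neg_one_smul, add_neg_cancel, map_zero] at h1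
    exact le_antisymm h1 (apply_nonneg Φ y)

theorem lip_fd [FiniteDimensional ℝ X] (Φ : Seminorm ℝ X) : ∃ C, 0 < C ∧ ∀ x, Φ x ≤ C * ‖x‖ :=
  Seminorm.bound_of_continuous_normedSpace Φ Φ.convexOn.locallyLipschitz.continuous

theorem sub_le_lip {Φ : Seminorm ℝ X} {C : ℝ} (hC : ∀ x, Φ x ≤ C * ‖x‖) (a b : X) :
    |Φ a - Φ b| ≤ C * ‖a - b‖ := (abs_sub_map_le_sub Φ a b).trans (hC _)

/-- Only the tangent of a curve matters. -/
theorem curve_iff {Φ : X → ℝ} {C : ℝ} (hC : ∀ a b, |Φ a - Φ b| ≤ C * ‖a - b‖) {γ : ℝ → X}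
    {v : X} {t a : ℝ} (hγ : HasDerivAt γ v t) :
    HasDerivAt (fun s => Φ (γ s)) a t ↔ HasDerivAt (fun s : ℝ => Φ (γ t + s • v)) a 0 := by
  rw [hasDerivAt_iff_isLittleO_nhds_zero] at hγ
  have h1 : (fun s : ℝ => Φ (γ (t + s)) - Φ (γ t + s • v)) =o[𝓝 0] fun s : ℝ => s := by
    refine Asymptotics.IsBigO.trans_isLittleO (Asymptotics.IsBigO.of_bound C ?_) hγ
    refine Eventually.of_forall fun s => ?_
    have := hC (γ (t + s)) (γ t + s • v)
    rwa [← sub_sub] at this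
  rw [hasDerivAt_iff_isLittleO_nhds_zero, hasDerivAt_iff_isLittleO_nhds_zero]
  constructor
  · intro h
    refine (h.sub h1).congr_left fun s => ?_
    simp only [zero_add, zero_smul, add_zero]
    ring
  · intro h
    refine (h.add h1).congr_left fun s => ?_
    simp only [zero_add, zero_smul, add_zero]
    ring

theorem kil_iff_curve {Φ : Seminorm ℝ X} {C : ℝ} (hC : ∀ x, Φ x ≤ C * ‖x‖) {γ : ℝ → X}
    {v : X} {t : ℝ} (hγ : HasDerivAt γ v t) :
    Kil Φ (γ t) v ↔ HasDerivAt (fun s => Φ (γ s)) 0 t :=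
  (curve_iff (sub_le_lip hC) hγ).symm

/-- The derivative in a direction with a radial part. -/
theorem Kil.radial {Φ : Seminorm ℝ X} {y v : X} {a : ℝ} (h : Kil Φ y (v - a • y)) :
    HasDerivAt (fun s : ℝ => Φ (y + s • v)) (a * Φ y) 0 := by
  have h1 : HasDerivAt (fun s : ℝ => 1 + s * a) a 0 := by
    simpa using ((hasDerivAt_id (0 : ℝ)).mul_const a).const_add 1
  have h2 : HasDerivAt (fun s : ℝ => s / (1 + s * a)) 1 0 := by
    have := (hasDerivAt_id' (0 : ℝ)).fun_div h1 (by simp)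
    simpa using this
  have h3 : HasDerivAt (fun s : ℝ => Φ (y + s • (v - a • y))) 0 (0 / (1 + 0 * a)) := by
    rw [zero_div]; exact h
  have h4 := h1.mul (h3.comp (0 : ℝ) h2)
  have h5 : ∀ᶠ s in 𝓝 (0 : ℝ), 0 < 1 + s * a :=
    h1.continuousAt.eventually (lt_mem_nhds (by simp))
  have h6 : (fun s : ℝ => Φ (y + s • v)) =ᶠ[𝓝 0] (fun s : ℝ => 1 + s * a) *
      ((fun s : ℝ => Φ (y + s • (v - a • y))) ∘ fun s : ℝ => s / (1 + s * a)) := by
    filter_upwards [h5] with s hs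
    have e : y + s • v = (1 + s * a) • (y + (s / (1 + s * a)) • (v - a • y)) := by
      rw [smul_add, smul_smul, mul_div_cancel₀ _ hs.ne', add_smul, one_smul, smul_sub, mul_smul]
      abel
    simp only [Pi.mul_apply, Function.comp_apply]
    rw [e, map_smul_eq_mul, Real.norm_of_nonneg hs.le]
  have h7 := h4.congr_of_eventuallyEq h6
  simpa using h7

theorem Mn.neg {Φ : X → ℝ} {y v : X} (h : Mn Φ y v) : Mn Φ y (-v) := fun s => by
  simpa using h (-s)

theorem mn_curve_le {Φ : X → ℝ} {C : ℝ} (hC : ∀ a b, |Φ a - Φ b| ≤ C * ‖a - b‖) {γ γ' : ℝ → X}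
    {a b : ℝ} (hγ : ∀ t ∈ Icc a b, HasDerivAt γ (γ' t) t)
    (hm : ∀ t ∈ Icc a b, Mn Φ (γ t) (γ' t)) : ∀ t ∈ Icc a b, Φ (γ a) ≤ Φ (γ t) := by
  have hΦ : Continuous Φ := by
    refine (LipschitzWith.of_dist_le' (K := C) fun x y => ?_).continuous
    rw [Real.dist_eq, dist_eq_norm]; exact hC x y
  have hc : ContinuousOn (fun t => -Φ (γ t)) (Icc a b) := fun t ht =>
    (hΦ.continuousAt.comp (hγ t ht).continuousAt).neg.continuousWithinAt
  intro t ht
  have key := image_le_of_liminf_slope_right_le_deriv_boundary (f := fun t => -Φ (γ t))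
    (B := fun _ => -Φ (γ a)) (B' := fun _ => 0) hc le_rfl continuousOn_const
    (fun x _ => (hasDerivAt_const x _).hasDerivWithinAt) ?_ ht
  · simpa using key
  intro x hx r hr
  have hx' : x ∈ Icc a b := Ico_subset_Icc_self hx
  have h1 := hγ x hx'
  rw [hasDerivAt_iff_isLittleO] at h1
  have h2 : (fun z : ℝ => Φ (γ z) - Φ (γ x + (z - x) • γ' x)) =o[𝓝 x] fun z : ℝ => z - x := by
    refine Asymptotics.IsBigO.trans_isLittleO (Asymptotics.IsBigO.of_bound C ?_) h1
    refine Eventually.of_forall fun s => ?_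
    have := hC (γ s) (γ x + (s - x) • γ' x)
    rwa [← sub_sub] at this
  have h3 := (Asymptotics.isLittleO_iff.1 h2) (half_pos hr)
  refine Eventually.frequently ?_
  filter_upwards [nhdsWithin_le_nhds h3, self_mem_nhdsWithin] with z hz hxz
  have hp : 0 < z - x := sub_pos.2 hxz
  rw [slope_def_field, div_lt_iff₀ hp]
  rw [Real.norm_eq_abs, Real.norm_of_nonneg hp.le] at hz
  have h4 := hm x hx' (z - x)
  have h5 := (abs_le.1 hz).1
  nlinarith [mul_pos hr hp]

/-- A curve with minimal tangents stays on a level set. -/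
theorem mn_curve {Φ : X → ℝ} {C : ℝ} (hC : ∀ a b, |Φ a - Φ b| ≤ C * ‖a - b‖) {γ γ' : ℝ → X}
    {a b : ℝ} (hab : a ≤ b) (hγ : ∀ t ∈ Icc a b, HasDerivAt γ (γ' t) t)
    (hm : ∀ t ∈ Icc a b, Mn Φ (γ t) (γ' t)) : Φ (γ b) = Φ (γ a) := by
  refine le_antisymm ?_ (mn_curve_le hC hγ hm b ⟨hab, le_rfl⟩)
  have hs : ∀ t ∈ Icc (-b) (-a), -t ∈ Icc a b := fun t ht =>
    ⟨by linarith [ht.2], by linarith [ht.1]⟩
  have h := mn_curve_le hC (γ := fun t => γ (-t)) (γ' := fun t => -γ' (-t)) (a := -b) (b := -a)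
    (fun t ht => by
      simpa [Function.comp_def] using (hγ _ (hs t ht)).scomp t (hasDerivAt_neg t))
    (fun t ht => (hm _ (hs t ht)).neg) (-a) ⟨by linarith, le_rfl⟩
  simpa using h

end Pool.Agent.Lib.LB40
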