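import Mathlib

/-! Analytic solutions of linear systems with analytic coefficients. -/

open Set Filter Topology Module

noncomputable section

namespace Pool.Agent.Lib.LB40

/-- A finite-dimensional space of functions is separated by finitely many points. -/
theorem unisolvent {I W : Type} [AddCommGroup W] [Module ℝ W] (P : Submodule ℝ (I → W))
    [FiniteDimensional ℝ P] : ∃ s : Finset I, ∀ f ∈ P, (∀ v ∈ s, f v = 0) → f = 0 := by
  classical
  let K : Finset I → Submodule ℝ P := fun s =>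
    { carrier := {f | ∀ v ∈ s, f.1 v = 0}
      add_mem' := fun {f g} hf hg v hv => by
        have h1 := hf v hv
        have h2 := hg v hv
        simp [h1, h2]
      zero_mem' := fun v _ => rfl
      smul_mem' := fun c f hf v hv => by
        have h1 := hf v hv
        simp [h1] }
  obtain ⟨s, hs⟩ := (wellFounded_lt (α := Submodule ℝ P)).has_min (range K) (range_nonempty K)
  obtain ⟨⟨s, rfl⟩, hs⟩ := hs
  refine ⟨s, fun f hf h0 => funext fun v => ?_⟩
  have h1 : K (insert v s) ≤ K s := fun g hg w hw => hg w (Finset.mem_insert_of_mem hw)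
  have h2 : K (insert v s) = K s := by
    by_contra hne
    exact hs _ (mem_range_self _) (lt_of_le_of_ne h1 hne)
  have h3 : (⟨f, hf⟩ : P) ∈ K (insert v s) := by rw [h2]; exact h0
  exact h3 v (Finset.mem_insert_self v s)

variable {Ξ U W M : Type} [NormedAddCommGroup Ξ] [NormedSpace ℝ Ξ]
  [NormedAddCommGroup U] [NormedSpace ℝ U] [FiniteDimensional ℝ U]
  [NormedAddCommGroup W] [NormedSpace ℝ W] [NormedAddCommGroup M] [NormedSpace ℝ M]

theorem an_zero {f : Ξ → W} (hf : AnalyticOnNhd ℝ f univ) {O D : Set Ξ} (hO : IsOpen O)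
    (hne : O.Nonempty) (hD : O ⊆ closure D) (h : ∀ ξ ∈ D, f ξ = 0) (ξ : Ξ) : f ξ = 0 := by
  obtain ⟨z, hz⟩ := hne
  have hc : IsClosed {ξ | f ξ = 0} := isClosed_eq hf.continuous continuous_const
  have h1 : f =ᶠ[𝓝 z] 0 := by
    filter_upwards [hO.mem_nhds hz] with y hy
    exact closure_minimal (t := {ξ | f ξ = 0}) h hc (hD hy)
  exact hf.eqOn_zero_of_preconnected_of_eventuallyEq_zero isPreconnected_univ (mem_univ z) h1
    (mem_univ ξ)

theorem an_mat {n : ℕ} {B : Ξ → Fin n × Fin n → ℝ} {ξ : Ξ}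
    (h : ∀ i, AnalyticAt ℝ (fun ξ => B ξ i) ξ) (j : ℕ) :
    AnalyticAt ℝ (fun ξ => (Matrix.of (B ξ).curry).charpoly.coeff j) ξ := by
  have h3 := AnalyticAt.aeval_mvPolynomial h ((Matrix.charpoly.univ ℝ (Fin n)).coeff j)
  refine h3.congr (Eventually.of_forall fun x => ?_)
  exact (MvPolynomial.aeval_eq_eval₂Hom _ _).trans
    (Matrix.charpoly.univ_coeff_eval₂Hom (Fin n) (algebraMap ℝ ℝ) (B x) j)

theorem an_charpoly {S : Ξ → U →L[ℝ] U} {ξ : Ξ} (hS : AnalyticAt ℝ S ξ) (j : ℕ) :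
    AnalyticAt ℝ (fun ξ => (S ξ : U →ₗ[ℝ] U).charpoly.coeff j) ξ := by
  obtain ⟨e⟩ : Nonempty (Basis (Fin (finrank ℝ U)) ℝ U) := ⟨Module.finBasis ℝ U⟩
  have h1 : ∀ i : Fin (finrank ℝ U) × Fin (finrank ℝ U),
      AnalyticAt ℝ (fun ξ => e.repr (S ξ (e i.2)) i.1) ξ := fun i => by
    have h2 : AnalyticAt ℝ (fun ξ => S ξ (e i.2)) ξ :=
      ((ContinuousLinearMap.apply ℝ U (e i.2)).analyticAt (S ξ)).comp hS
    exact ((LinearMap.toContinuousLinearMap (e.coord i.1)).analyticAt _).comp h2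
  refine (an_mat (B := fun ξ i => e.repr (S ξ (e i.2)) i.1) h1 j).congr
    (Eventually.of_forall fun x => ?_)
  have e1 : Matrix.of (Function.curry fun i : Fin (finrank ℝ U) × Fin (finrank ℝ U) =>
      e.repr (S x (e i.2)) i.1) = LinearMap.toMatrix e e (S x : U →ₗ[ℝ] U) := by
    ext a b
    rw [LinearMap.toMatrix_apply]
    rfl
  exact (congrArg (fun m => m.charpoly.coeff j) e1).trans
    (congrArg (fun p => p.coeff j) (LinearMap.charpoly_toMatrix _ e))

theorem exists_tr [FiniteDimensional ℝ W] : ∃ τ : (U →L[ℝ] W) →L[ℝ] W →L[ℝ] U,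
    (∀ A u, τ A (A u) = 0 → A u = 0) ∧ ∀ A w, A (τ A w) = 0 → τ A w = 0 := by
  let e := Module.finBasis ℝ U
  let f := Module.finBasis ℝ W
  let c : Fin (finrank ℝ W) → W →L[ℝ] ℝ := fun j => LinearMap.toContinuousLinearMap (f.coord j)
  let τ : (U →L[ℝ] W) →ₗ[ℝ] W →L[ℝ] U :=
    { toFun := fun A => ∑ i, ∑ j, c j (A (e i)) • (c j).smulRight (e i)
      map_add' := fun A B => by simp [add_smul, Finset.sum_add_distrib]
      map_smul' := fun r A => by simp [Finset.smul_sum, mul_smul] }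
  have h1 : ∀ A w, τ A w = ∑ i, (∑ j, c j (A (e i)) * c j w) • e i := fun A w => by
    simp [τ, Finset.sum_smul, mul_smul]
  have h2 : ∀ A w i, e.repr (τ A w) i = ∑ j, c j (A (e i)) * c j w := fun A w i => by
    rw [h1, e.repr_sum_self]
  have h3 : ∀ (A : U →L[ℝ] W) u w,
      ∑ i, e.repr u i * e.repr (τ A w) i = ∑ j, c j (A u) * c j w := fun A u w => by
    conv_rhs => rw [← e.sum_repr u]
    simp only [h2, map_sum, map_smul, smul_eq_mul, Finset.mul_sum, Finset.sum_mul, mul_assoc]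
    exact Finset.sum_comm
  refine ⟨LinearMap.toContinuousLinearMap τ, fun A u h => ?_, fun A w h => ?_⟩
  · have h4 := h3 A u (A u)
    rw [show τ A (A u) = 0 from h] at h4
    simp only [map_zero, Finsupp.coe_zero, Pi.zero_apply, mul_zero, Finset.sum_const_zero] at h4
    have h5 := (Finset.sum_eq_zero_iff_of_nonneg fun j _ => mul_self_nonneg (c j (A u))).1 h4.symm
    exact f.ext_elem fun j => by
      simpa [c] using mul_self_eq_zero.1 (h5 j (Finset.mem_univ j))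
  · have h4 := h3 A (τ A w) w
    rw [show A (τ A w) = 0 from h] at h4
    simp only [map_zero, zero_mul, Finset.sum_const_zero] at h4
    have h5 := (Finset.sum_eq_zero_iff_of_nonneg
      fun i _ => mul_self_nonneg (e.repr (τ A w) i)).1 h4
    exact e.ext_elem fun i => by
      simpa using mul_self_eq_zero.1 (h5 i (Finset.mem_univ i))

theorem pow_ker {S : U →L[ℝ] U} (h : ∀ u, S (S u) = 0 → S u = 0) (k : ℕ) (u : U)
    (hu : (S ^ k) u = 0) : S u = 0 := by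
  induction k generalizing u with
  | zero => simpa using congrArg S hu
  | succ k ih =>
    rw [pow_succ] at hu
    exact h u (ih (S u) hu)

theorem ntd_eq {S : U →L[ℝ] U} (h : ∀ u, S (S u) = 0 → S u = 0) :
    finrank ℝ (LinearMap.ker (S : U →ₗ[ℝ] U)) = (S : U →ₗ[ℝ] U).charpoly.natTrailingDegree := by
  rw [← LinearMap.finrank_maxGenEigenspace_zero_eq]
  have e : LinearMap.ker (S : U →ₗ[ℝ] U) = Module.End.maxGenEigenspace (S : U →ₗ[ℝ] U) 0 := by
    ext u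
    rw [Module.End.mem_maxGenEigenspace, zero_smul, sub_zero, LinearMap.mem_ker]
    refine ⟨fun hu => ⟨1, by simpa using hu⟩, fun ⟨k, hk⟩ => pow_ker h k u ?_⟩
    rw [← ContinuousLinearMap.toLinearMap_pow] at hk
    exact hk
  rw [e]

theorem cay {S : U →L[ℝ] U} (h : ∀ u, S (S u) = 0 → S u = 0) {g : ℕ}
    (hg : ∀ j < g, (S : U →ₗ[ℝ] U).charpoly.coeff j = 0) (u : U) :
    S ((S : U →ₗ[ℝ] U).charpoly.coeff g • u + (∑ j ∈ Finset.range (finrank ℝ U),
      (S : U →ₗ[ℝ] U).charpoly.coeff (g + 1 + j) • S ^ j) (S u)) = 0 := by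
  refine pow_ker h g _ ?_
  have h1 := LinearMap.aeval_self_charpoly (S : U →ₗ[ℝ] U)
  rw [Polynomial.aeval_eq_sum_range' (n := g + 1 + finrank ℝ U)
    (by rw [LinearMap.charpoly_natDegree]; omega), Finset.sum_range_add, Finset.sum_range_succ,
    Finset.sum_eq_zero fun j hj => by rw [hg j (Finset.mem_range.1 hj), zero_smul], zero_add] at h1
  have h2 := LinearMap.congr_fun h1 u
  simp only [← ContinuousLinearMap.toLinearMap_pow, LinearMap.add_apply, LinearMap.smul_apply,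
    LinearMap.sum_apply, ContinuousLinearMap.coe_coe, LinearMap.zero_apply] at h2
  rw [← h2, map_add, map_smul, ContinuousLinearMap.sum_apply, map_sum]
  congr 1
  refine Finset.sum_congr rfl fun j _ => ?_
  rw [ContinuousLinearMap.smul_apply, map_smul, show g + 1 + j = g + j + 1 by omega, pow_succ,
    pow_add]
  rfl

/-- An analytic linear system which is solvable on a somewhere dense set has an analytic solution
up to a scalar factor, which is not zero where the kernel has its least dimension. -/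
theorem ratsol [FiniteDimensional ℝ W] {A : Ξ → U →L[ℝ] W} {b : Ξ → M →L[ℝ] W}
    (hA : AnalyticOnNhd ℝ A univ) (hb : AnalyticOnNhd ℝ b univ) {O D : Set Ξ} (hO : IsOpen O)
    (hne : O.Nonempty) (hD : O ⊆ closure D) {g : ℕ}
    (h1 : ∀ ξ ∈ D, g ≤ finrank ℝ (LinearMap.ker (A ξ : U →ₗ[ℝ] W)))
    (h2 : ∀ ξ ∈ D, ∀ μ, ∃ u, A ξ u = b ξ μ) :
    ∃ (d : Ξ → ℝ) (L : Ξ → M →L[ℝ] U), AnalyticOnNhd ℝ d univ ∧ AnalyticOnNhd ℝ L univ ∧
      ∀ ξ, g ≤ finrank ℝ (LinearMap.ker (A ξ : U →ₗ[ℝ] W)) ∧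
        (d ξ ≠ 0 ↔ finrank ℝ (LinearMap.ker (A ξ : U →ₗ[ℝ] W)) = g) ∧
        ∀ μ, A ξ (L ξ μ) = d ξ • b ξ μ := by
  obtain ⟨τ, t1, t2⟩ := exists_tr (U := U) (W := W)
  set S : Ξ → U →L[ℝ] U := fun ξ => (τ (A ξ)).comp (A ξ) with hS
  have aτ : ∀ ξ, AnalyticAt ℝ (fun ξ => τ (A ξ)) ξ := fun ξ =>
    (τ.analyticAt _).comp (hA ξ (mem_univ ξ))
  have aS : ∀ ξ, AnalyticAt ℝ S ξ := fun ξ =>
    ((ContinuousLinearMap.compL ℝ U W U).analyticAt_bilinear _).comp₂ (aτ ξ) (hA ξ (mem_univ ξ))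
  have s1 : ∀ ξ u, S ξ u = 0 → A ξ u = 0 := fun ξ u h => t1 _ _ h
  have s2 : ∀ ξ u, S ξ (S ξ u) = 0 → S ξ u = 0 := fun ξ u h => t2 _ _ (s1 ξ _ h)
  set p : Ξ → Polynomial ℝ := fun ξ => (S ξ : U →ₗ[ℝ] U).charpoly with hp
  have p0 : ∀ ξ, p ξ ≠ 0 := fun ξ => (LinearMap.charpoly_monic _).ne_zero
  have ap : ∀ j ξ, AnalyticAt ℝ (fun ξ => (p ξ).coeff j) ξ := fun j ξ => an_charpoly (aS ξ) j
  have rk : ∀ ξ, finrank ℝ (LinearMap.ker (A ξ : U →ₗ[ℝ] W)) = (p ξ).natTrailingDegree := by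
    intro ξ
    have e : LinearMap.ker (A ξ : U →ₗ[ℝ] W) = LinearMap.ker (S ξ : U →ₗ[ℝ] U) := by
      ext u
      exact ⟨fun h => by
        have h' : A ξ u = 0 := h
        change τ (A ξ) (A ξ u) = 0
        rw [h', map_zero], fun h => s1 ξ u h⟩
    rw [e, ntd_eq (s2 ξ)]
  have lo : ∀ ξ, ∀ j < g, (p ξ).coeff j = 0 := fun ξ j hj =>
    an_zero (fun ξ _ => ap j ξ) hO hne hD (fun ξ hξ =>
      Polynomial.coeff_eq_zero_of_lt_natTrailingDegree (hj.trans_le (rk ξ ▸ h1 ξ hξ))) ξ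
  have ge : ∀ ξ, g ≤ (p ξ).natTrailingDegree := fun ξ =>
    Polynomial.le_natTrailingDegree (p0 ξ) (lo ξ)
  have eg : ∀ ξ, finrank ℝ (LinearMap.ker (A ξ : U →ₗ[ℝ] W)) = g ↔ (p ξ).coeff g ≠ 0 := by
    intro ξ
    rw [rk]
    refine ⟨fun h => ?_, fun h => le_antisymm (Polynomial.natTrailingDegree_le_of_ne_zero h) (ge ξ)⟩
    rw [← h]
    exact Polynomial.trailingCoeff_nonzero_iff_nonzero.2 (p0 ξ)
  set Q : Ξ → U →L[ℝ] U := fun ξ =>
    ∑ j ∈ Finset.range (finrank ℝ U), (p ξ).coeff (g + 1 + j) • S ξ ^ j with hQ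
  have aQ : ∀ ξ, AnalyticAt ℝ Q ξ := fun ξ =>
    Finset.analyticAt_fun_sum _ fun j _ => (ap _ ξ).fun_smul ((aS ξ).fun_pow j)
  set N : Ξ → M →L[ℝ] U := fun ξ => -(Q ξ).comp ((τ (A ξ)).comp (b ξ)) with hN
  have aN : ∀ ξ, AnalyticAt ℝ N ξ := fun ξ =>
    (((ContinuousLinearMap.compL ℝ M U U).analyticAt_bilinear _).comp₂ (aQ ξ)
      (((ContinuousLinearMap.compL ℝ M W U).analyticAt_bilinear _).comp₂ (aτ ξ)
        (hb ξ (mem_univ ξ)))).fun_neg
  have id : ∀ ξ, (A ξ).comp (N ξ) - (p ξ).coeff g • b ξ = 0 := by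
    refine an_zero (fun ξ _ => ?_) hO hne hD fun ξ hξ => ?_
    · exact (((ContinuousLinearMap.compL ℝ M U W).analyticAt_bilinear _).comp₂
        (hA ξ (mem_univ ξ)) (aN ξ)).fun_sub ((ap g ξ).fun_smul (hb ξ (mem_univ ξ)))
    · ext μ
      obtain ⟨u, hu⟩ := h2 ξ hξ μ
      have h3 := s1 ξ _ (cay (s2 ξ) (lo ξ) u)
      have h4 : N ξ μ = -Q ξ (S ξ u) := by simp [hN, hS, hu]
      rw [map_add, map_smul, hu] at h3
      rw [ContinuousLinearMap.sub_apply, ContinuousLinearMap.comp_apply, h4, map_neg,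
        ContinuousLinearMap.smul_apply, ContinuousLinearMap.zero_apply, ← neg_add', add_comm,
        neg_eq_zero]
      exact h3
  refine ⟨fun ξ => (p ξ).coeff g, N, fun ξ _ => ap g ξ, fun ξ _ => aN ξ,
    fun ξ => ⟨rk ξ ▸ ge ξ, (eg ξ).symm, fun μ => ?_⟩⟩
  have := ContinuousLinearMap.ext_iff.1 (sub_eq_zero.1 (id ξ)) μ
  simpa using this

end Pool.Agent.Lib.LB40
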