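import Mathlib

/-! Composition with an analytic map is analytic on spaces of continuous paths. -/

namespace Pool.Agent.Lib.LB40

open Set Metric

variable {I : Type*} [TopologicalSpace I] [CompactSpace I]
  {V A : Type*} [NormedAddCommGroup V] [NormedSpace ℝ V] [NormedAddCommGroup A] [NormedSpace ℝ A]

/-- A multilinear map applied pointwise. -/
noncomputable def liftM {n : ℕ} (p : ContinuousMultilinearMap ℝ (fun _ : Fin n => V) A) :
    ContinuousMultilinearMap ℝ (fun _ : Fin n => C(I, V)) C(I, A) :=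
  MultilinearMap.mkContinuous
    { toFun := fun u => ⟨fun t => p (fun i => u i t), p.cont.comp
        (continuous_pi fun i => (u i).continuous)⟩
      map_update_add' := fun u i x y => by
        ext t
        have h : ∀ z : C(I, V), (fun j => Function.update u i z j t)
            = Function.update (fun j => u j t) i (z t) := fun z => by
          funext j
          exact Function.apply_update (fun _ (w : C(I, V)) => w t) u i z j
        simp only [ContinuousMap.coe_mk, ContinuousMap.add_apply, h]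
        exact p.map_update_add _ _ _ _
      map_update_smul' := fun u i c x => by
        ext t
        have h : ∀ z : C(I, V), (fun j => Function.update u i z j t)
            = Function.update (fun j => u j t) i (z t) := fun z => by
          funext j
          exact Function.apply_update (fun _ (w : C(I, V)) => w t) u i z j
        simp only [ContinuousMap.coe_mk, ContinuousMap.smul_apply, h]
        exact p.map_update_smul _ _ _ _ } ‖p‖ (fun u => by
      refine (ContinuousMap.norm_le _ (by positivity)).2 fun t => ?_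
      refine (p.le_opNorm _).trans (mul_le_mul_of_nonneg_left ?_ (norm_nonneg _))
      exact Finset.prod_le_prod (fun i _ => norm_nonneg _) fun i _ => (u i).norm_coe_le_norm t)

theorem liftM_apply {n : ℕ} (p : ContinuousMultilinearMap ℝ (fun _ : Fin n => V) A)
    (u : Fin n → C(I, V)) (t : I) : liftM p u t = p (fun i => u i t) := rfl

theorem liftM_norm {n : ℕ} (p : ContinuousMultilinearMap ℝ (fun _ : Fin n => V) A) :
    ‖liftM (I := I) p‖ ≤ ‖p‖ :=
  MultilinearMap.mkContinuous_norm_le _ (norm_nonneg _) _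

theorem sup_loc [CompleteSpace A] {g : V → A} {p : FormalMultilinearSeries ℝ V A} {c : V}
    {r : ENNReal} (h : HasFPowerSeriesOnBall g p c r) :
    ∃ G : C(I, V) → C(I, A), AnalyticOnNhd ℝ G (eball 0 r) ∧
      ∀ u ∈ eball (0 : C(I, V)) r, ∀ t, G u t = g (c + u t) := by
  let P : FormalMultilinearSeries ℝ C(I, V) C(I, A) := fun n => liftM (p n)
  have hr : r ≤ P.radius :=
    h.r_le.trans (FormalMultilinearSeries.radius_le_of_le fun n => liftM_norm (p n))
  have hP := P.hasFPowerSeriesOnBall (h.r_pos.trans_le hr)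
  refine ⟨P.sum, hP.analyticOnNhd.mono (eball_subset_eball hr), fun u hu t => ?_⟩
  have h1 := hP.hasSum (eball_subset_eball hr hu)
  have h2 := (ContinuousMap.evalCLM ℝ t).hasSum h1
  have hut : u t ∈ eball (0 : V) r := by
    rw [mem_eball_zero_iff] at hu ⊢
    refine lt_of_le_of_lt ?_ hu
    rw [← ofReal_norm_eq_enorm, ← ofReal_norm_eq_enorm]
    exact ENNReal.ofReal_le_ofReal (u.norm_coe_le_norm t)
  have h3 := h.hasSum hut
  rw [zero_add] at h2
  exact h2.unique h3

/-- Pointwise multiplication by a continuous real function. -/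
noncomputable def mulL (w : C(I, ℝ)) : C(I, V) →L[ℝ] C(I, V) :=
  LinearMap.mkContinuous
    { toFun := fun f => ⟨fun t => w t • f t, w.continuous.smul f.continuous⟩
      map_add' := fun f g => by ext t; simp
      map_smul' := fun c f => by ext t; simp [smul_comm c] } ‖w‖ (fun f => by
      refine (ContinuousMap.norm_le _ (by positivity)).2 fun t => ?_
      exact (norm_smul_le _ _).trans
        (mul_le_mul (w.norm_coe_le_norm t) (f.norm_coe_le_norm t) (norm_nonneg _) (norm_nonneg _)))

theorem mulL_apply (w : C(I, ℝ)) (f : C(I, V)) (t : I) : mulL w f t = w t • f t := rfl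

theorem mulL_an {X : Type*} [NormedAddCommGroup X] [NormedSpace ℝ X] (w : C(I, ℝ))
    {f : X → C(I, V)} {x : X} (hf : AnalyticAt ℝ f x) : AnalyticAt ℝ (fun y => mulL w (f y)) x :=
  (ContinuousLinearMap.analyticAt (𝕜 := ℝ) (E := C(I, V)) (F := C(I, V)) (mulL w) _).comp hf

theorem sup_an [CompleteSpace A] {g : V → A} (γ0 : C(I, V))
    (hg : ∀ t, AnalyticAt ℝ g (γ0 t)) :
    ∃ G : C(I, V) → C(I, A), AnalyticAt ℝ G γ0 ∧ ∀ᶠ γ in nhds γ0, ∀ t, G γ t = g (γ t) := by
  classical
  have H : ∀ t : I, ∃ ρ : ℝ, 0 < ρ ∧ ∃ G : C(I, V) → C(I, A), AnalyticOnNhd ℝ G (ball 0 (4 * ρ)) ∧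
      ∀ u ∈ ball (0 : C(I, V)) (4 * ρ), ∀ s, G u s = g (γ0 t + u s) := by
    intro t
    obtain ⟨p, r, h⟩ := hg t
    obtain ⟨G, h1, h2⟩ := sup_loc (I := I) h
    obtain ⟨e, he, hs⟩ : ∃ e > 0, ball (0 : C(I, V)) e ⊆ eball 0 r :=
      Metric.isOpen_iff.1 isOpen_eball 0 (mem_eball_self h.r_pos)
    refine ⟨e / 4, by positivity, G, ?_, ?_⟩
    · rw [show 4 * (e / 4) = e by ring]; exact h1.mono hs
    · rw [show 4 * (e / 4) = e by ring]; exact fun u hu => h2 u (hs hu)
  choose ρ hρ G hG hG' using H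
  obtain ⟨T, hT⟩ := isCompact_univ.elim_finite_subcover
    (fun t : I => {s : I | ‖γ0 s - γ0 t‖ < ρ t})
    (fun t => isOpen_lt (by fun_prop) continuous_const)
    (fun s _ => mem_iUnion.2 ⟨s, by simpa using hρ s⟩)
  let φ : I → C(I, ℝ) := fun t => ⟨fun s => max 0 (ρ t - ‖γ0 s - γ0 t‖), by fun_prop⟩
  let χ : I → C(I, ℝ) := fun t => ⟨fun s => max 0 (min 1 (2 - ‖γ0 s - γ0 t‖ / ρ t)), by fun_prop⟩
  have hS : ∀ s, 0 < ∑ t ∈ T, φ t s := by
    intro s
    obtain ⟨t, ht, hs⟩ := mem_iUnion₂.1 (hT (mem_univ s))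
    refine Finset.sum_pos' (fun t _ => le_max_left _ _) ⟨t, ht, ?_⟩
    exact lt_max_of_lt_right (sub_pos.2 hs)
  let S : C(I, ℝ) := ⟨fun s => (∑ t ∈ T, φ t s)⁻¹,
    (continuous_finsetSum _ fun t _ => (φ t).continuous).inv₀ fun s => (hS s).ne'⟩
  let u : I → C(I, V) → C(I, V) := fun t γ => mulL (χ t) (γ - ContinuousMap.const I (γ0 t))
  have hu0 : ∀ t, u t γ0 ∈ ball (0 : C(I, V)) (4 * ρ t) := by
    intro t
    have h0 := hρ t
    rw [mem_ball_zero_iff]
    refine lt_of_le_of_lt ((ContinuousMap.norm_le (C := 2 * ρ t) _ (by positivity)).2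
      fun s => ?_) (by linarith)
    change ‖max 0 (min 1 (2 - ‖γ0 s - γ0 t‖ / ρ t)) • (γ0 s - γ0 t)‖ ≤ _
    rw [norm_smul, Real.norm_of_nonneg (le_max_left _ _)]
    rcases le_total ‖γ0 s - γ0 t‖ (2 * ρ t) with h | h
    · exact (mul_le_of_le_one_left (norm_nonneg _)
        (max_le zero_le_one (min_le_left _ _))).trans h
    · have : 2 ≤ ‖γ0 s - γ0 t‖ / ρ t := by rwa [le_div_iff₀ h0]
      rw [max_eq_left ((min_le_right _ _).trans (by linarith)), zero_mul]
      positivity
  have hua : ∀ t γ, AnalyticAt ℝ (u t) γ := fun t γ =>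
    mulL_an (χ t) (f := fun γ : C(I, V) => γ - ContinuousMap.const I (γ0 t))
      (analyticAt_id.sub analyticAt_const)
  refine ⟨fun γ => mulL S (∑ t ∈ T, mulL (φ t) (G t (u t γ))), ?_, ?_⟩
  · refine mulL_an S (Finset.analyticAt_fun_sum _ fun t _ => ?_)
    exact mulL_an (φ t) ((hG t _ (hu0 t)).comp (hua t γ0))
  · have hev : ∀ᶠ γ in nhds γ0, ∀ t ∈ T, u t γ ∈ ball (0 : C(I, V)) (4 * ρ t) :=
      (Filter.eventually_all_finset T).2 fun t _ =>
        (hua t γ0).continuousAt.eventually (isOpen_ball.mem_nhds (hu0 t))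
    filter_upwards [hev] with γ hγ s
    rw [mulL_apply, ContinuousMap.coe_sum, Finset.sum_apply]
    have : ∀ t ∈ T, mulL (φ t) (G t (u t γ)) s = φ t s • g (γ s) := by
      intro t ht
      rw [mulL_apply, hG' t _ (hγ t ht)]
      rcases le_total (ρ t) ‖γ0 s - γ0 t‖ with h | h
      · have : φ t s = 0 := max_eq_left (by linarith)
        rw [this, zero_smul, zero_smul]
      · have h1 : ‖γ0 s - γ0 t‖ / ρ t ≤ 1 := by rwa [div_le_one (hρ t)]
        have h2 : χ t s = 1 := by
          change max 0 (min 1 (2 - ‖γ0 s - γ0 t‖ / ρ t)) = 1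
          rw [min_eq_left (by linarith), max_eq_right zero_le_one]
        have h3 : u t γ s = γ s - γ0 t := by
          change χ t s • (γ s - γ0 t) = _
          rw [h2, one_smul]
        rw [h3, add_sub_cancel]
    rw [Finset.sum_congr rfl this, ← Finset.sum_smul, smul_smul]
    change ((∑ t ∈ T, φ t s)⁻¹ * ∑ t ∈ T, φ t s) • _ = _
    rw [inv_mul_cancel₀ (hS s).ne', one_smul]

end Pool.Agent.Lib.LB40
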